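import Pool.Agent.Lib.MP_7e5527_ag.EF.Main

/-! Subvarieties of the Shimura variety of type E7 and the set Sigma of a Tate point with jointly
generic conjugates. -/

namespace Pool.Agent.Results.MP_7e5527_ag.E7Full

open Pool.Agent.E7 (Ix HH)
open Pool.Agent.E7.St

theorem result (p : ℕ) [Fact p.Prime] :
    (∃ (e : ℂ_[p] ≃+* ℂ) (x : Fin 783 → Ix → ℂ), Cj e x) ∧
    ∀ (e : ℂ_[p] ≃+* ℂ) (x : Fin 783 → Ix → ℂ), Cj e x → ∀ k F a, Form k F a →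
      (∃ Z ∈ HH, F Z ≠ 0) → ∃ S : Set (Ix → ℂ), S.Finite ∧ S ⊆ HH ∧
        ∀ Z ∈ Sig (mat bW) hg HH (x 0), F Z = 0 →
          Spe (mat bW) (hg Z) ∨ ∃ s ∈ S, ∃ γ j, Mv γ s Z j :=
  Pool.Agent.E7.full_main p

end Pool.Agent.Results.MP_7e5527_ag.E7Full
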