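import Pool.Agent.Lib.MP_7e5527_ag.EL.Lit
import Pool.Agent.Lib.MP_7e5527_ag.EL.St

/-! Curves in the Shimura variety of type E7 and the set Sigma of a Hodge generic Tate point. -/

namespace Pool.Agent.Results.MP_7e5527_ag.E7Lit

open Pool.Agent.E7 (Ix HH)
open Pool.Agent.E7.St

theorem result (p : ℕ) [Fact p.Prime] :
    (∃ (e : ℂ_[p] ≃+* ℂ) (x : Ix → ℂ), x ∈ HH ∧ Gen x ∧ Tate e x) ∧
    ∀ (e : ℂ_[p] ≃+* ℂ), ∀ x ∈ HH, Gen x → Tate e x → ∀ f, IsCurve f →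
      ∃ S : Set (Ix → ℂ), S.Finite ∧ S ⊆ HH ∧ ∀ Z ∈ Sig (mat bW) hg HH x,
        (∃ τ γ j, Mv γ (f τ) Z j) → Spe (mat bW) (hg Z) ∨ ∃ s ∈ S, ∃ γ j, Mv γ s Z j :=
  Pool.Agent.E7.lit_main p

end Pool.Agent.Results.MP_7e5527_ag.E7Lit
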