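import Pool.Agent.Lib.MP_7e5527_ag.EG.Fin

/-! Subvarieties of the Shimura variety of type E7 and the set Sigma of an ordinary point with
jointly generic conjugates. -/

namespace Pool.Agent.Results.MP_7e5527_ag.E7OrdGen

open Pool.Agent.E7 (Ix HH sy IsForm Ktz OrdR)
open Pool.Agent.E7.St

theorem result (p : ℕ) [Fact p.Prime] (e : ℂ_[p] ≃+* ℂ) (r d m : ℕ) [NeZero m] (hr : 0 < r)
    (hd : r + m * d ≤ 27 * m) (x : Fin m → Ix → ℂ) (χ : Fin m → ((Ix → ℂ) → ℂ) → ℂ_[p])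
    (hx : ∀ i, x i ∈ HH ∧ Ktz e (χ i) (x i) ∧ ∃ ρ : ℂ_[p] →+* ℂ_[p], (∀ y, ‖ρ y‖ = ‖y‖) ∧
      ∀ k F (a : (Ix → ℚ) → ℤ), (IsForm k F fun T => a T) → χ i F = ρ (χ 0 F))
    (hO : OrdR r (χ 0)) (hJ : Jg (mat bW) (GE sy q4) fun i => hg (x i))
    (V : Set (Ix → ℂ)) (hH : V ⊆ HH)
    (hV : ∀ (k : ℤ) (G : Fin (d + 2) → (Ix → ℂ) → ℂ), (∀ i, ∃ a, IsForm k (G i) a) →
      ∃ (n : ℕ) (P : MvPolynomial (Fin (d + 2)) ℂ), P ≠ 0 ∧ P.IsHomogeneous n ∧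
        ∀ Z ∈ V, MvPolynomial.eval (fun i => G i Z) P = 0) :
    ∃ S : Set (Ix → ℂ), S.Finite ∧ S ⊆ HH ∧ ∀ Z ∈ Sig (mat bW) hg HH (x 0), Z ∈ V →
      Spe (mat bW) (hg Z) ∨ ∃ s ∈ S, ∃ γ j, Mv γ s Z j :=
  Pool.Agent.E7.oc_main e hr hd hx hO hJ hH hV

end Pool.Agent.Results.MP_7e5527_ag.E7OrdGen
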