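import Mathlib
import Pool.Agent.Lib.MP_7e5527_ag.Mz.Lower
import Pool.Agent.Lib.MP_7e5527_ag.Mz.RgTop
import Pool.Agent.Lib.MP_7e5527_ag.Mz.Two

set_option autoImplicit false

open Pool.Agent.UAP

namespace Pool.Agent.Results.MP_7e5527_ag.MazurFour

/-- Two quadruples of different points of the Hecke orbit of a transcendental `t` have the same
cross ratio only if they agree up to the Klein four-group. -/
theorem result (t : ℂ) (ht : Transcendental ℚ t) (x y : Fin 4 → ℂ)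
    (hx : Function.Injective x) (hy : Function.Injective y) (hxt : ∀ i, x i ∈ heckeOrbit t)
    (hyt : ∀ i, y i ∈ heckeOrbit t) :
    (x 0 - x 2) * (x 1 - x 3) / ((x 0 - x 3) * (x 1 - x 2)) =
        (y 0 - y 2) * (y 1 - y 3) / ((y 0 - y 3) * (y 1 - y 2)) ↔
      y = x ∨ y = ![x 1, x 0, x 3, x 2] ∨ y = ![x 2, x 3, x 0, x 1] ∨
        y = ![x 3, x 2, x 1, x 0] :=
  Mz.rigid_iff ht x y hx hy hxt hyt

/-- For a transcendental `t`, the largest number of points `s` of the Hecke orbit of `t` that a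
Moebius map other than the identity sends into the same Hecke orbit is four. -/
theorem four (t : ℂ) (ht : Transcendental ℚ t) :
    IsGreatest {n : ℕ∞ | ∃ a b c d : ℂ, a * d - b * c ≠ 0 ∧ ¬ (b = 0 ∧ c = 0 ∧ a = d) ∧
      n = {s ∈ heckeOrbit t | c * s + d ≠ 0 ∧
        (a * s + b) / (c * s + d) ∈ heckeOrbit t}.encard} 4 := by
  constructor
  · obtain ⟨a, b, c, d, h1, h2, h3⟩ := Mz.lower ht
    exact ⟨a, b, c, d, h1, h2, le_antisymm h3 (Mz.upper ht h1 h2)⟩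
  · rintro n ⟨a, b, c, d, h1, h2, rfl⟩
    exact Mz.upper ht h1 h2

/-- Four points occur only for an involution that exchanges two pairs. -/
theorem classify (t : ℂ) (ht : Transcendental ℚ t) (a b c d : ℂ) (hdet : a * d - b * c ≠ 0)
    (hid : ¬ (b = 0 ∧ c = 0 ∧ a = d)) :
    {s ∈ heckeOrbit t | c * s + d ≠ 0 ∧ (a * s + b) / (c * s + d) ∈ heckeOrbit t}.encard ≤ 3 ∨
      (a + d = 0 ∧ ∃ x1 x2 x3 x4 : ℂ, x1 ≠ x2 ∧ x1 ≠ x3 ∧ x1 ≠ x4 ∧ x2 ≠ x3 ∧ x2 ≠ x4 ∧ x3 ≠ x4 ∧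
        {s ∈ heckeOrbit t | c * s + d ≠ 0 ∧ (a * s + b) / (c * s + d) ∈ heckeOrbit t} =
          {x1, x2, x3, x4} ∧ (a * x1 + b) / (c * x1 + d) = x2 ∧
        (a * x3 + b) / (c * x3 + d) = x4) :=
  Mz.classify ht hdet hid

/-- If one of the two coordinates may be algebraic, there are at most ten points. -/
theorem hybrid (t : ℂ) (ht : Transcendental ℚ t) (a b c d : ℂ) (hdet : a * d - b * c ≠ 0)
    (hid : ¬ (b = 0 ∧ c = 0 ∧ a = d)) :
    {s : ℂ | c * s + d ≠ 0 ∧ (s ∈ heckeOrbit t ∨ IsAlgebraic ℚ s) ∧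
      ((a * s + b) / (c * s + d) ∈ heckeOrbit t ∨ IsAlgebraic ℚ ((a * s + b) / (c * s + d))) ∧
      ¬ (IsAlgebraic ℚ s ∧ IsAlgebraic ℚ ((a * s + b) / (c * s + d)))}.encard ≤ 10 :=
  Mz.hybrid ht hdet hid

/-- Two classes, the first transcendental over the second: at most three points. -/
theorem two (t t' : ℂ) (ht : Transcendental (Algebra.adjoin ℚ {t'}) t) (a b c d : ℂ)
    (hdet : a * d - b * c ≠ 0) :
    {s ∈ heckeOrbit t | c * s + d ≠ 0 ∧ (a * s + b) / (c * s + d) ∈ heckeOrbit t'}.encard ≤ 3 :=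
  Mz.two_three ht hdet

end Pool.Agent.Results.MP_7e5527_ag.MazurFour
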